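import Pool.Agent.Y347.VL.Value

set_option autoImplicit false

/-!
# Variational sets of homomorphic cubes over finite abelian groups
-/

namespace Pool.Agent.Y347.AG

open Function Pool.Agent.H430R2.PermCubes

/-- the cubes `C j` of order `n` are homomorphic over the group `G` with `n` elements: after
relabelling the coordinates (by `τ i`) and the values (by `σ j`) with the elements of `G` each of
them is a sum of endomorphisms of `G` applied to the coordinates -/
def IsHomomorphic (G : Type) [AddCommGroup G] (m n k : ℕ)
    (C : Fin k → (Fin m → Fin n) → Fin n) : Prop :=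
  ∃ (τ : Fin m → (Fin n ≃ G)) (σ : Fin k → (Fin n ≃ G)) (φ : Fin k → Fin m → (G →+ G)),
    ∀ j x, σ j (C j x) = ∑ i, φ j i (τ i (x i))

/-- the numbers `k` for which there is a variational set of `k` cubes of dimension `m` and order
`n` which are homomorphic over `G` -/
def GSizes (G : Type) [AddCommGroup G] (m n : ℕ) : Set ℕ :=
  {k | ∃ C : Fin k → (Fin m → Fin n) → Fin n, IsVariationalSet m n k C ∧ IsHomomorphic G m n k C}

/-- the map defined by a matrix of endomorphisms -/
def app {ι G : Type} [Fintype ι] [AddCommGroup G] (φ : ι → ι → (G →+ G)) (x : ι → G) : ι → G :=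
  fun s => ∑ i, φ s i (x i)

/-- the algebraic form -/
def HomSet (m : ℕ) (G : Type) [AddCommGroup G] (κ : Type) : Prop :=
  ∃ φ : κ → Fin m → (G →+ G), (∀ c i, Bijective (φ c i)) ∧
    ∀ e : Fin m → κ, Injective e → Bijective (app (fun s => φ (e s)))

theorem mem_gsizes_iff {m n k : ℕ} {G : Type} [AddCommGroup G] [Finite G]
    (hn : Nat.card G = n) : k ∈ GSizes G m n ↔ HomSet m G (Fin k) := by
  classical
  haveI : Fintype G := Fintype.ofFinite G
  constructor
  · rintro ⟨C, ⟨hC1, hC2⟩, τ, σ, φ, h⟩
    refine ⟨φ, ?_, ?_⟩
    · intro j i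
      rw [← Finite.surjective_iff_bijective]
      intro y
      obtain ⟨t, ht⟩ := (hC1 j i (fun l => (τ l).symm 0)).2 ((σ j).symm y)
      have h1 := h j (update (fun l => (τ l).symm 0) i t)
      simp only at ht
      rw [ht, Equiv.apply_symm_apply, Finset.sum_eq_single i] at h1
      · rw [update_self] at h1
        exact ⟨_, h1.symm⟩
      · intro l _ hl
        rw [update_of_ne hl, Equiv.apply_symm_apply, map_zero]
      · intro hi
        exact absurd (Finset.mem_univ i) hi
    · intro e he
      rw [← Finite.surjective_iff_bijective]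
      intro y
      obtain ⟨x, hx⟩ := (hC2 e he).2 (fun r => (σ (e r)).symm (y r))
      refine ⟨fun i => τ i (x i), ?_⟩
      funext r
      have h1 := h (e r) x
      have h2 := congrFun hx r
      simp only at h2
      rw [h2, Equiv.apply_symm_apply] at h1
      rw [h1]
      rfl
  · rintro ⟨φ, h1, h2⟩
    have hcard : Fintype.card G = n := by rw [← hn, Nat.card_eq_fintype_card]
    let β : G ≃ Fin n := Fintype.equivFinOfCardEq hcard
    refine ⟨fun j x => β (∑ i, φ j i (β.symm (x i))), ⟨?_, ?_⟩, fun _ => β.symm, fun _ => β.symm,
      φ, fun j x => by rw [Equiv.symm_apply_apply]⟩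
    · intro j i x
      have e1 : ∀ t : Fin n, β (∑ l, φ j l (β.symm (update x i t l))) =
          β (φ j i (β.symm t) + ∑ l ∈ Finset.univ.erase i, φ j l (β.symm (x l))) := by
        intro t
        rw [← Finset.add_sum_erase _ _ (Finset.mem_univ i), update_self]
        congr 2
        apply Finset.sum_congr rfl
        intro l hl
        rw [update_of_ne (Finset.ne_of_mem_erase hl)]
      simp only [e1]
      exact β.bijective.comp ((Equiv.addRight _).bijective.comp ((h1 j i).comp β.symm.bijective))
    · intro e he
      have hb := h2 e he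
      have e1 : Bijective (fun (x : Fin m → Fin n) (i : Fin m) => β.symm (x i)) :=
        (Equiv.arrowCongr (Equiv.refl (Fin m)) β.symm).bijective
      have e2 : Bijective (fun (x : Fin m → G) (i : Fin m) => β (x i)) :=
        (Equiv.arrowCongr (Equiv.refl (Fin m)) β).bijective
      exact e2.comp (hb.comp e1)

theorem HomSet.congr {m : ℕ} {G H κ : Type} [AddCommGroup G] [AddCommGroup H] (e : G ≃+ H)
    (h : HomSet m G κ) : HomSet m H κ := by
  obtain ⟨φ, h1, h2⟩ := h
  refine ⟨fun c i => (e.toAddMonoidHom.comp (φ c i)).comp e.symm.toAddMonoidHom, ?_, ?_⟩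
  · intro c i
    exact e.bijective.comp ((h1 c i).comp e.symm.bijective)
  · intro f hf
    have hb := h2 f hf
    have e1 : Bijective (fun (x : Fin m → H) (i : Fin m) => e.symm (x i)) :=
      (Equiv.arrowCongr (Equiv.refl (Fin m)) e.symm.toEquiv).bijective
    have e2 : Bijective (fun (x : Fin m → G) (i : Fin m) => e (x i)) :=
      (Equiv.arrowCongr (Equiv.refl (Fin m)) e.toEquiv).bijective
    have := e2.comp (hb.comp e1)
    convert this using 1
    funext x s
    simp only [app, comp_apply, map_sum]
    rfl

theorem HomSet.pi {m : ℕ} {J κ : Type} {H : J → Type} [∀ c, AddCommGroup (H c)]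
    (h : ∀ c, HomSet m (H c) κ) : HomSet m (∀ c, H c) κ := by
  choose φ h1 h2 using h
  refine ⟨fun k i =>
    { toFun := fun x c => φ c k i (x c)
      map_zero' := by funext c; simp
      map_add' := by intro x y; funext c; simp }, ?_, ?_⟩
  · intro k i
    constructor
    · intro x y hxy
      funext c
      exact (h1 c k i).1 (congrFun hxy c)
    · intro y
      choose x hx using fun c => (h1 c k i).2 (y c)
      exact ⟨x, funext hx⟩
  · intro e he
    have key : ∀ (x : Fin m → ∀ c, H c) (s : Fin m) (c : J),
        app (fun s i => ({ toFun := fun x c => φ c (e s) i (x c)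
                           map_zero' := by funext c; simp
                           map_add' := by intro x y; funext c; simp } :
                           (∀ c, H c) →+ (∀ c, H c))) x s c =
          app (fun s => φ c (e s)) (fun i => x i c) s := by
      intro x s c
      simp only [app, Finset.sum_apply]
      rfl
    constructor
    · intro x y hxy
      have : ∀ c, (fun i => x i c) = (fun i => y i c) := by
        intro c
        apply (h2 c e he).1
        funext s
        rw [← key x s c, ← key y s c]
        exact congrFun (congrFun hxy s) c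
      funext i c
      exact congrFun (this c) i
    · intro y
      choose x hx using fun c => (h2 c e he).2 (fun s => y s c)
      refine ⟨fun i c => x c i, ?_⟩
      funext s c
      refine (key _ s c).trans ?_
      exact congrFun (hx c) s

/-- surjectivity modulo `p` implies surjectivity -/
theorem surj_of_mod {X Y : Type} [AddCommGroup X] [AddCommGroup Y] (red : X →+ Y)
    (hred : Surjective red) (p e : ℕ) (hker : ∀ x, red x = 0 → ∃ z, x = p • z)
    (hnil : ∀ x : X, (p ^ e) • x = 0) (F : X →+ X) (f : Y →+ Y)
    (h : ∀ x, red (F x) = f (red x)) (hf : Surjective f) : Surjective F := by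
  have step : ∀ x : X, ∃ y z, x = F y + p • z := by
    intro x
    obtain ⟨v, hv⟩ := hf (red x)
    obtain ⟨y, rfl⟩ := hred v
    obtain ⟨z, hz⟩ := hker (x - F y) (by rw [map_sub, h, hv, sub_self])
    exact ⟨y, z, by rw [← hz]; abel⟩
  have all : ∀ k : ℕ, ∀ x : X, ∃ y z, x = F y + (p ^ k) • z := by
    intro k
    induction k with
    | zero => intro x; exact ⟨0, x, by simp⟩
    | succ k ih =>
      intro x
      obtain ⟨y, z, hz⟩ := ih x
      obtain ⟨y', z', hz'⟩ := step z
      refine ⟨y + (p ^ k) • y', z', ?_⟩
      rw [hz, hz', map_add, map_nsmul, smul_add, smul_smul, ← pow_succ]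
      abel
  intro x
  obtain ⟨y, z, hz⟩ := all e x
  exact ⟨y, by rw [hz, hnil, add_zero]⟩

end Pool.Agent.Y347.AG
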