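import Pool.Agent.Y347.AG.Lift

set_option autoImplicit false

/-!
# Descending to the elementary abelian sections
-/

namespace Pool.Agent.Y347.AG

open Function Pool.Agent.H430R2.PermCubes Pool.Agent.Y347.VL

theorem nsmul_V {p r : ℕ} {k : ℕ} (hk : k ≠ 0) (v : Fin r → ZMod p) : (p ^ k) • v = 0 := by
  funext a
  rw [Pi.smul_apply, nsmul_eq_mul]
  push_cast
  rw [ZMod.natCast_self, zero_pow hk, zero_mul]
  rfl

/-- the cross terms vanish -/
theorem cross {p e r p' e' r' : ℕ} (hp : p.Prime) (hp' : p'.Prime) (he : e ≠ 0)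
    (hne : (p', e') ≠ (p, e)) (g : Hom' p' e' r' →+ Hom' p e r) (x : Hom' p' e' r')
    (hx : (p ^ e) • x = 0) : redV p e r he (g x) = 0 := by
  haveI : NeZero p := ⟨hp.ne_zero⟩
  haveI : NeZero p' := ⟨hp'.ne_zero⟩
  have hy : (p ^ e) • g x = 0 := by rw [← map_nsmul, hx, map_zero]
  have hy' : (p' ^ e') • g x = 0 := by rw [← map_nsmul, homc_nil, map_zero]
  by_cases hpp : p' = p
  · subst hpp
    have hee : e' ≠ e := fun h => hne (by rw [h])
    rcases Nat.lt_or_gt_of_ne hee with h | h
    · funext a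
      apply red1_of_pow_mul he h
      have := congrFun hy' a
      rw [Pi.smul_apply, nsmul_eq_mul] at this
      push_cast at this
      exact this
    · have h1 : ∃ z : Hom' p' e' r', x = (p' ^ (e' - e)) • z := by
        have h2 : ∀ a, ∃ z, x a = (p' : ZMod (p' ^ e')) ^ (e' - e) * z := by
          intro a
          apply exists_of_pow_mul h.le
          have := congrFun hx a
          rw [Pi.smul_apply, nsmul_eq_mul] at this
          push_cast at this
          exact this
        choose z hz using h2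
        refine ⟨z, ?_⟩
        funext a
        rw [hz a, Pi.smul_apply, nsmul_eq_mul]
        push_cast
        rfl
      obtain ⟨z, rfl⟩ := h1
      rw [map_nsmul, map_nsmul]
      exact nsmul_V (by omega) _
  · have hcop : Nat.Coprime (p ^ e) (p' ^ e') :=
      Nat.Coprime.pow _ _ ((Nat.coprime_primes hp hp').2 (fun h => hpp h.symm))
    have h1 : addOrderOf (g x) ∣ 1 := by
      have := Nat.dvd_gcd (addOrderOf_dvd_of_nsmul_eq_zero hy) (addOrderOf_dvd_of_nsmul_eq_zero hy')
      rwa [Nat.Coprime.gcd_eq_one hcop] at this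
    have h2 : g x = 0 := by
      have := addOrderOf_dvd_iff_nsmul_eq_zero.1 h1
      rwa [one_nsmul] at this
    rw [h2, map_zero]

/-- every endomorphism of a homocyclic group induces one of the elementary abelian quotient -/
theorem exists_desc {p e r : ℕ} [NeZero p] (he : e ≠ 0) (F : Hom' p e r →+ Hom' p e r) :
    ∃ f : (Fin r → ZMod p) →+ (Fin r → ZMod p), ∀ x, redV p e r he (F x) = f (redV p e r he x) := by
  let g : Hom' p e r →+ (Fin r → ZMod p) := (redV p e r he).comp F
  have hker : (redV p e r he).ker ≤ g.ker := by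
    intro x hx
    rw [AddMonoidHom.mem_ker] at hx ⊢
    obtain ⟨z, rfl⟩ := redV_eq_zero he hx
    change redV p e r he (F (p • z)) = 0
    rw [map_nsmul, map_nsmul]
    have := nsmul_V (p := p) one_ne_zero (redV p e r he (F z))
    rwa [pow_one] at this
  refine ⟨(redV p e r he).liftOfSurjective (redV_surj p e r he) ⟨g, hker⟩, ?_⟩
  intro x
  exact (AddMonoidHom.liftOfRightInverse_comp_apply _ _ _ ⟨g, hker⟩ x).symm

section
variable {J : Type} [Fintype J] [DecidableEq J] {p e r : J → ℕ}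

/-- the group -/
abbrev Grp (p e r : J → ℕ) : Type := ∀ c, Hom' (p c) (e c) (r c)

theorem key (hp : ∀ c, (p c).Prime) (he : ∀ c, e c ≠ 0) (hinj : Injective fun c => (p c, e c))
    (c₀ : J) (f : Grp p e r →+ Grp p e r) (x : Grp p e r) (hx : (p c₀ ^ e c₀) • x = 0) :
    redV (p c₀) (e c₀) (r c₀) (he c₀) (f x c₀) =
      redV (p c₀) (e c₀) (r c₀) (he c₀) (f (Pi.single c₀ (x c₀)) c₀) := by
  have h1 : f x c₀ = ∑ c, f (Pi.single c (x c)) c₀ := by
    conv_lhs => rw [← Finset.univ_sum_single x]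
    rw [map_sum, Finset.sum_apply]
  rw [h1, map_sum]
  apply Finset.sum_eq_single c₀
  · intro c _ hc
    let g : Hom' (p c) (e c) (r c) →+ Hom' (p c₀) (e c₀) (r c₀) :=
      ((Pi.evalAddMonoidHom (fun c => Hom' (p c) (e c) (r c)) c₀).comp f).comp
        (AddMonoidHom.single (fun c => Hom' (p c) (e c) (r c)) c)
    exact cross (hp c₀) (hp c) (he c₀) (fun h => hc (hinj h)) g (x c) (congrFun hx c)
  · intro h
    exact absurd (Finset.mem_univ _) h

/-- the induced endomorphism -/
theorem exists_bar (hp : ∀ c, (p c).Prime) (he : ∀ c, e c ≠ 0)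
    (hinj : Injective fun c => (p c, e c)) (c₀ : J) (f : Grp p e r →+ Grp p e r) :
    ∃ f' : (Fin (r c₀) → ZMod (p c₀)) →+ (Fin (r c₀) → ZMod (p c₀)),
      ∀ x : Grp p e r, (p c₀ ^ e c₀) • x = 0 → redV (p c₀) (e c₀) (r c₀) (he c₀) (f x c₀) =
        f' (redV (p c₀) (e c₀) (r c₀) (he c₀) (x c₀)) := by
  haveI : NeZero (p c₀) := ⟨(hp c₀).ne_zero⟩
  let F : Hom' (p c₀) (e c₀) (r c₀) →+ Hom' (p c₀) (e c₀) (r c₀) :=
      ((Pi.evalAddMonoidHom (fun c => Hom' (p c) (e c) (r c)) c₀).comp f).comp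
        (AddMonoidHom.single (fun c => Hom' (p c) (e c) (r c)) c₀)
  obtain ⟨f', hf'⟩ := exists_desc (he c₀) F
  exact ⟨f', fun x hx => (key hp he hinj c₀ f x hx).trans (hf' (x c₀))⟩

theorem surj_bar (hp : ∀ c, (p c).Prime) (he : ∀ c, e c ≠ 0) (c₀ : J) {ι : Type} [Fintype ι]
    (φ : ι → ι → (Grp p e r →+ Grp p e r))
    (ψ : ι → ι → ((Fin (r c₀) → ZMod (p c₀)) →+ (Fin (r c₀) → ZMod (p c₀))))
    (h : ∀ i j, ∀ x : Grp p e r, (p c₀ ^ e c₀) • x = 0 →
      redV (p c₀) (e c₀) (r c₀) (he c₀) (φ i j x c₀) =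
        ψ i j (redV (p c₀) (e c₀) (r c₀) (he c₀) (x c₀)))
    (hφ : Bijective (app φ)) : Bijective (app ψ) := by
  haveI : Fact (p c₀).Prime := ⟨hp c₀⟩
  rw [← Finite.surjective_iff_bijective]
  intro v
  choose y hy using fun i => redV_surj (p c₀) (e c₀) (r c₀) (he c₀) (v i)
  obtain ⟨x, hx⟩ := hφ.2 (fun i => (Pi.single c₀ (y i) : Grp p e r))
  have hx0 : ∀ i, (p c₀ ^ e c₀) • x i = 0 := by
    have h1 : app φ (fun i => (p c₀ ^ e c₀) • x i) = app φ 0 := by
      funext s
      have h2 : app φ (fun i => (p c₀ ^ e c₀) • x i) s = (p c₀ ^ e c₀) • app φ x s := by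
        simp only [app, map_nsmul, Finset.smul_sum]
      rw [h2, hx]
      have h3 : app φ 0 s = 0 := by simp [app]
      rw [h3, ← Pi.single_smul, homc_nil, Pi.single_zero]
    intro i
    exact congrFun (hφ.1 h1) i
  refine ⟨fun i => redV (p c₀) (e c₀) (r c₀) (he c₀) (x i c₀), ?_⟩
  funext s
  rw [← hy s]
  have h4 := congrFun (congrFun hx s) c₀
  rw [Pi.single_eq_same] at h4
  rw [← h4]
  simp only [app, Finset.sum_apply, map_sum]
  exact Finset.sum_congr rfl fun i _ => (h s i (x i) (hx0 i)).symm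

/-- the upper bound -/
theorem HomSet.desc (hp : ∀ c, (p c).Prime) (he : ∀ c, e c ≠ 0)
    (hinj : Injective fun c => (p c, e c)) {m : ℕ} {κ : Type} (h : HomSet m (Grp p e r) κ)
    (c₀ : J) : HomSet m (Fin (r c₀) → ZMod (p c₀)) κ := by
  obtain ⟨φ, h1, h2⟩ := h
  choose ψ hψ using fun (k : κ) (i : Fin m) => exists_bar hp he hinj c₀ (φ k i)
  refine ⟨ψ, ?_, ?_⟩
  · intro k i
    have h3 := surj_bar hp he c₀ (ι := Unit) (fun _ _ => φ k i) (fun _ _ => ψ k i)
      (fun _ _ => hψ k i) ?_
    · constructor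
      · intro x y hxy
        have : app (fun _ _ : Unit => ψ k i) (fun _ => x) = app (fun _ _ => ψ k i) (fun _ => y) := by
          funext s
          simpa [app] using hxy
        exact congrFun (h3.1 this) ()
      · intro y
        obtain ⟨x, hx⟩ := h3.2 (fun _ => y)
        refine ⟨x (), ?_⟩
        have := congrFun hx ()
        simpa [app] using this
    · constructor
      · intro x y hxy
        funext s
        apply (h1 k i).1
        have := congrFun hxy ()
        simpa [app] using this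
      · intro y
        obtain ⟨x, hx⟩ := (h1 k i).2 (y ())
        refine ⟨fun _ => x, ?_⟩
        funext s
        simpa [app] using hx
  · intro f hf
    exact surj_bar hp he c₀ _ _ (fun i j => hψ (f i) j) (h2 f hf)

end

end Pool.Agent.Y347.AG
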