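import Pool.Agent.Y347.AG.Descend
import Mathlib.GroupTheory.FiniteAbelian.Basic

set_option autoImplicit false

/-!
# Every finite abelian group is a product of homocyclic groups of different exponents
-/

namespace Pool.Agent.Y347.AG

open Function

theorem exists_iso (G : Type) [AddCommGroup G] [Finite G] :
    ∃ (J : Type) (_ : Fintype J) (p e r : J → ℕ), (∀ c, (p c).Prime) ∧ (∀ c, e c ≠ 0) ∧
      (∀ c, r c ≠ 0) ∧ (Injective fun c => (p c, e c)) ∧ Nonempty (G ≃+ Grp p e r) := by
  classical
  obtain ⟨ι, hι, p, hp, e, ⟨iso⟩⟩ := AddCommGroup.equiv_directSum_zmod_of_finite G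
  let S : Finset (ℕ × ℕ) := (Finset.univ.image fun i => (p i, e i)).filter fun c => c.2 ≠ 0
  let J := {c // c ∈ S}
  let fib : J → Type := fun c => {i : ι // (p i, e i) = c.1}
  have hS : ∀ c : J, (∃ i, (p i, e i) = c.1) ∧ c.1.2 ≠ 0 := by
    intro c
    have := c.2
    rw [Finset.mem_filter, Finset.mem_image] at this
    obtain ⟨⟨i, -, hi⟩, h2⟩ := this
    exact ⟨⟨i, hi⟩, h2⟩
  haveI : ∀ c, Fintype (fib c) := fun c => inferInstanceAs (Fintype {i : ι // (p i, e i) = c.1})
  let E : ∀ c : J, fib c ≃ Fin (Fintype.card (fib c)) := fun c => Fintype.equivFin (fib c)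
  refine ⟨J, inferInstance, fun c => c.1.1, fun c => c.1.2, fun c => Fintype.card (fib c),
    ?_, ?_, ?_, ?_, ?_⟩
  · intro c
    obtain ⟨⟨i, hi⟩, -⟩ := hS c
    change (c.1.1).Prime
    rw [← hi]
    exact hp i
  · intro c
    exact (hS c).2
  · intro c
    obtain ⟨⟨i, hi⟩, -⟩ := hS c
    exact (Fintype.card_pos_iff.2 ⟨⟨i, hi⟩⟩).ne'
  · intro c d hcd
    exact Subtype.ext hcd
  · have hpow : ∀ (c : J) (t : fib c), p t.1 ^ e t.1 = c.1.1 ^ c.1.2 := by
      intro c t
      have h := t.2
      exact congrArg (fun z : ℕ × ℕ => z.1 ^ z.2) h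
    let f : (∀ i, ZMod (p i ^ e i)) →+ Grp (fun c : J => c.1.1) (fun c => c.1.2)
        (fun c => Fintype.card (fib c)) :=
      { toFun := fun x c a => ZMod.ringEquivCongr (hpow c ((E c).symm a)) (x ((E c).symm a).1)
        map_zero' := by
          funext c a
          simp
        map_add' := by
          intro x y
          funext c a
          simp }
    have hf : Bijective f := by
      constructor
      · rw [injective_iff_map_eq_zero]
        intro x hx
        have h1 : ∀ (c : J) (t : fib c), x t.1 = 0 := by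
          intro c t
          obtain ⟨a, rfl⟩ := (E c).symm.surjective t
          have h2 : ZMod.ringEquivCongr (hpow c ((E c).symm a)) (x ((E c).symm a).1) = 0 :=
            congrFun (congrFun hx c) a
          exact (map_eq_zero_iff _ (RingEquiv.injective _)).1 h2
        funext i
        by_cases hi : e i = 0
        · have : Subsingleton (ZMod (p i ^ e i)) := by
            rw [hi, pow_zero]
            infer_instance
          exact Subsingleton.elim _ _
        · have hmem : (p i, e i) ∈ S :=
            Finset.mem_filter.2 ⟨Finset.mem_image_of_mem _ (Finset.mem_univ i), hi⟩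
          exact h1 ⟨(p i, e i), hmem⟩ ⟨i, rfl⟩
      · intro y
        have hmem : ∀ i, e i ≠ 0 → (p i, e i) ∈ S := fun i hi =>
            Finset.mem_filter.2 ⟨Finset.mem_image_of_mem _ (Finset.mem_univ i), hi⟩
        let x : ∀ i, ZMod (p i ^ e i) := fun i =>
          if hi : e i = 0 then 0 else y ⟨(p i, e i), hmem i hi⟩ (E _ ⟨i, rfl⟩)
        have hx : ∀ (c : J) (i : ι) (h : (p i, e i) = c.1) (h' : p i ^ e i = c.1.1 ^ c.1.2),
            ZMod.ringEquivCongr h' (x i) = y c (E c ⟨i, h⟩) := by
          intro c i h h'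
          have hi : e i ≠ 0 := by
            have h3 := (hS c).2
            rwa [← h] at h3
          have hc : c = ⟨(p i, e i), hmem i hi⟩ := Subtype.ext h.symm
          subst hc
          have hxi : x i = y ⟨(p i, e i), hmem i hi⟩ (E _ ⟨i, rfl⟩) := dif_neg hi
          rw [hxi]
          simp
        refine ⟨x, ?_⟩
        funext c a
        change ZMod.ringEquivCongr (hpow c ((E c).symm a)) (x ((E c).symm a).1) = y c a
        rw [hx c ((E c).symm a).1 ((E c).symm a).2]
        congr 1
        exact (E c).apply_symm_apply a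
    exact ⟨(iso.trans (DirectSum.addEquivProd _)).trans (AddEquiv.ofBijective f hf)⟩

end Pool.Agent.Y347.AG
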