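import Pool.Agent.Y347.AG.Main
import Pool.Agent.Y347.AG.Struct

set_option autoImplicit false

/-!
# Finite abelian groups: final statements
-/

namespace Pool.Agent.Y347.AG

open Function Pool.Agent.H430R2.PermCubes Pool.Agent.Y347.VL

/-- `G` is the direct product of the homocyclic groups `(Z/p^e)^r` for `c ∈ J`, with `r ≥ 1` and
with different prime powers `p^e` (given by different pairs `(p, e)`) -/
def Decomp (G : Type) [AddCommGroup G] {J : Type} (p e r : J → ℕ) : Prop :=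
  (∀ c, (p c).Prime) ∧ (∀ c, e c ≠ 0) ∧ (∀ c, r c ≠ 0) ∧ (Injective fun c => (p c, e c)) ∧
    Nonempty (G ≃+ (∀ c, Fin (r c) → ZMod (p c ^ e c)))

section
variable {J : Type} [Fintype J] {p e r : J → ℕ} {G : Type} [AddCommGroup G]

theorem Decomp.finite (h : Decomp G p e r) : Finite G := by
  obtain ⟨hp, -, -, -, ⟨iso⟩⟩ := h
  haveI : ∀ c, NeZero (p c) := fun c => ⟨(hp c).ne_zero⟩
  haveI : ∀ c, NeZero (p c ^ e c) := fun c => ⟨pow_ne_zero _ (NeZero.ne (p c))⟩
  classical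
  exact Finite.of_equiv _ iso.symm.toEquiv

theorem Decomp.iff (h : Decomp G p e r) (m k : ℕ) :
    k ∈ GSizes G m (Nat.card G) ↔
      ∀ c, k ∈ GSizes (Fin (r c) → ZMod (p c)) m (p c ^ r c) := by
  haveI := h.finite
  obtain ⟨hp, he, hr, hinj, ⟨iso⟩⟩ := h
  rw [mem_gsizes_iff rfl]
  have h1 : HomSet m G (Fin k) ↔ HomSet m (Grp p e r) (Fin k) :=
    ⟨fun h => h.congr iso, fun h => h.congr iso.symm⟩
  rw [h1, homSet_iff_of_le hp he hinj]
  refine forall_congr' fun c => ?_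
  haveI : Fact (p c).Prime := ⟨hp c⟩
  rw [mem_gsizes_iff (by simp [Nat.card_eq_fintype_card, ZMod.card])]

theorem Decomp.mem (h : Decomp G p e r) {m q : ℕ} (hm : 2 ≤ m)
    (hq : IsLeast (Set.range fun c => p c ^ r c) q) :
    value m q ∈ GSizes G m (Nat.card G) := by
  haveI := h.finite
  obtain ⟨hp, he, hr, hinj, ⟨iso⟩⟩ := h
  have h2 : 2 ≤ q := by
    obtain ⟨c, hc⟩ := hq.1
    rw [← hc]
    have : IsPrimePow (p c ^ r c) := ⟨p c, r c, (hp c).prime, Nat.pos_of_ne_zero (hr c), rfl⟩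
    exact this.two_le
  rw [mem_gsizes_iff rfl]
  refine HomSet.congr iso.symm ?_
  refine HomSet.pi (H := fun c => Hom' (p c) (e c) (r c)) fun c => ?_
  exact homSet_exists (hp c) (he c) (hr c) hm h2 (hq.2 ⟨c, rfl⟩)

theorem Decomp.isGreatest (h : Decomp G p e r) {m q : ℕ} (hm : 2 ≤ m)
    (hq : IsLeast (Set.range fun c => p c ^ r c) q) (hc : Covered' m q) :
    IsGreatest (GSizes G m (Nat.card G)) (value m q) := by
  obtain ⟨hp, he, hr, hinj, ⟨iso⟩⟩ := h
  exact isGreatest_group hm hp he hr hinj iso rfl hq hc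

end

theorem exists_decomp (G : Type) [AddCommGroup G] [Finite G] :
    ∃ (J : Type) (_ : Fintype J) (p e r : J → ℕ), Decomp G p e r :=
  exists_iso G

end Pool.Agent.Y347.AG
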