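import Pool.Agent.Y347.AG.Basic

set_option autoImplicit false

/-!
# Lifting from elementary abelian groups to homocyclic groups
-/

namespace Pool.Agent.Y347.AG

open Function Pool.Agent.H430R2.PermCubes Pool.Agent.Y347.VL

/-- reduction of `ZMod (p ^ e)` modulo `p` -/
def red1 (p e : ℕ) (he : e ≠ 0) : ZMod (p ^ e) →+* ZMod p :=
  ZMod.castHom (dvd_pow_self p he) (ZMod p)

theorem red1_surj (p e : ℕ) (he : e ≠ 0) : Surjective (red1 p e he) :=
  ZMod.castHom_surjective _

theorem red1_eq_zero {p e : ℕ} [NeZero p] (he : e ≠ 0) {y : ZMod (p ^ e)}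
    (h : red1 p e he y = 0) : ∃ z, y = p * z := by
  haveI : NeZero (p ^ e) := ⟨pow_ne_zero _ (NeZero.ne p)⟩
  have h1 : ((y.val : ℕ) : ZMod p) = 0 := by
    rw [← h, red1, ZMod.castHom_apply, ZMod.natCast_val]
  rw [ZMod.natCast_eq_zero_iff] at h1
  obtain ⟨c, hc⟩ := h1
  refine ⟨(c : ZMod (p ^ e)), ?_⟩
  rw [← ZMod.natCast_zmod_val y, hc]
  push_cast
  rfl

theorem red1_of_pow_mul {p e k : ℕ} [NeZero p] (he : e ≠ 0) (hke : k < e) {y : ZMod (p ^ e)}
    (h : (p : ZMod (p ^ e)) ^ k * y = 0) : red1 p e he y = 0 := by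
  haveI : NeZero (p ^ e) := ⟨pow_ne_zero _ (NeZero.ne p)⟩
  have h1 : ((p ^ k * y.val : ℕ) : ZMod (p ^ e)) = 0 := by
    push_cast
    rw [ZMod.natCast_zmod_val]
    exact h
  rw [ZMod.natCast_eq_zero_iff] at h1
  have h2 : p ∣ y.val := by
    obtain ⟨d, rfl⟩ : ∃ d, e = k + 1 + d := ⟨e - (k + 1), by omega⟩
    have h3 : p ^ k * p ∣ p ^ k * y.val := by
      refine dvd_trans ?_ h1
      rw [← pow_succ]
      exact pow_dvd_pow p (by omega)
    exact Nat.dvd_of_mul_dvd_mul_left (pow_pos (Nat.pos_of_ne_zero (NeZero.ne p)) k) h3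
  rw [red1, ZMod.castHom_apply, ← ZMod.natCast_val, ZMod.natCast_eq_zero_iff]
  exact h2

theorem exists_of_pow_mul {p e k : ℕ} [NeZero p] (hke : k ≤ e) {x : ZMod (p ^ e)}
    (h : (p : ZMod (p ^ e)) ^ k * x = 0) : ∃ z, x = (p : ZMod (p ^ e)) ^ (e - k) * z := by
  haveI : NeZero (p ^ e) := ⟨pow_ne_zero _ (NeZero.ne p)⟩
  have h1 : ((p ^ k * x.val : ℕ) : ZMod (p ^ e)) = 0 := by
    push_cast
    rw [ZMod.natCast_zmod_val]
    exact h
  rw [ZMod.natCast_eq_zero_iff] at h1
  have h2 : p ^ (e - k) ∣ x.val := by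
    have h3 : p ^ k * p ^ (e - k) ∣ p ^ k * x.val := by
      rwa [← pow_add, Nat.add_sub_cancel' hke]
    exact Nat.dvd_of_mul_dvd_mul_left (pow_pos (Nat.pos_of_ne_zero (NeZero.ne p)) k) h3
  obtain ⟨c, hc⟩ := h2
  refine ⟨(c : ZMod (p ^ e)), ?_⟩
  rw [← ZMod.natCast_zmod_val x, hc]
  push_cast
  rfl

/-- the homocyclic group -/
abbrev Hom' (p e r : ℕ) : Type := Fin r → ZMod (p ^ e)

/-- reduction modulo `p` -/
def redV (p e r : ℕ) (he : e ≠ 0) : Hom' p e r →+ (Fin r → ZMod p) where
  toFun x a := red1 p e he (x a)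
  map_zero' := by funext a; simp
  map_add' := by intro x y; funext a; simp

theorem redV_surj (p e r : ℕ) (he : e ≠ 0) : Surjective (redV p e r he) := by
  intro y
  choose x hx using fun a => red1_surj p e he (y a)
  exact ⟨x, funext hx⟩

theorem redV_eq_zero {p e r : ℕ} [NeZero p] (he : e ≠ 0) {y : Hom' p e r}
    (h : redV p e r he y = 0) : ∃ z, y = p • z := by
  choose z hz using fun a => red1_eq_zero he (congrFun h a)
  refine ⟨z, ?_⟩
  funext a
  rw [hz a, Pi.smul_apply, nsmul_eq_mul]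

theorem homc_nil (p e r : ℕ) (x : Hom' p e r) : (p ^ e) • x = 0 := by
  funext a
  rw [Pi.smul_apply, nsmul_eq_mul, ZMod.natCast_self, zero_mul]
  rfl

/-- every endomorphism of the elementary abelian group lifts -/
theorem exists_lift {p e r : ℕ} [NeZero p] (he : e ≠ 0)
    (f : (Fin r → ZMod p) →+ (Fin r → ZMod p)) :
    ∃ F : Hom' p e r →+ Hom' p e r, ∀ x, redV p e r he (F x) = f (redV p e r he x) := by
  classical
  let L := AddMonoidHom.toZModLinearMap p f
  have hL : ∀ x, f x = L x := fun _ => rfl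
  choose M hM using fun a b => red1_surj p e he (LinearMap.toMatrix' L a b)
  refine ⟨(Matrix.mulVecLin (Matrix.of M)).toAddMonoidHom, ?_⟩
  intro x
  rw [hL, ← LinearMap.toMatrix'_mulVec]
  funext a
  change red1 p e he ((Matrix.of M).mulVec x a) = _
  rw [Matrix.mulVec, dotProduct, map_sum, Matrix.mulVec, dotProduct]
  apply Finset.sum_congr rfl
  intro b _
  rw [map_mul, Matrix.of_apply, hM]
  rfl

theorem HomSet.lift {m p e r : ℕ} {κ : Type} [NeZero p] (he : e ≠ 0)
    (h : HomSet m (Fin r → ZMod p) κ) : HomSet m (Hom' p e r) κ := by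
  haveI : NeZero (p ^ e) := ⟨pow_ne_zero _ (NeZero.ne p)⟩
  obtain ⟨φ, h1, h2⟩ := h
  choose Φ hΦ using fun (c : κ) (i : Fin m) => exists_lift (e := e) he (φ c i)
  refine ⟨Φ, ?_, ?_⟩
  · intro c i
    rw [← Finite.surjective_iff_bijective]
    exact surj_of_mod (redV p e r he) (redV_surj p e r he) p e (fun _ => redV_eq_zero he)
      (homc_nil p e r) (Φ c i) (φ c i) (hΦ c i) (h1 c i).2
  · intro f hf
    rw [← Finite.surjective_iff_bijective]
    let red : (Fin m → Hom' p e r) →+ (Fin m → Fin r → ZMod p) :=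
      { toFun := fun x i => redV p e r he (x i)
        map_zero' := by funext i; simp
        map_add' := by intro x y; funext i; simp }
    let F : (Fin m → Hom' p e r) →+ (Fin m → Hom' p e r) :=
      { toFun := app (fun s => Φ (f s))
        map_zero' := by funext s; simp [app]
        map_add' := by intro x y; funext s; simp [app, Finset.sum_add_distrib] }
    let f' : (Fin m → Fin r → ZMod p) →+ (Fin m → Fin r → ZMod p) :=
      { toFun := app (fun s => φ (f s))
        map_zero' := by funext s; simp [app]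
        map_add' := by intro x y; funext s; simp [app, Finset.sum_add_distrib] }
    refine surj_of_mod red ?_ p e ?_ ?_ F f' ?_ (h2 f hf).2
    · intro y
      choose x hx using fun i => redV_surj p e r he (y i)
      exact ⟨x, funext hx⟩
    · intro x hx
      choose z hz using fun i => redV_eq_zero he (congrFun hx i)
      exact ⟨z, funext hz⟩
    · intro x
      funext i
      exact homc_nil p e r (x i)
    · intro x
      funext s
      change redV p e r he (∑ i, Φ (f s) i (x i)) = ∑ i, φ (f s) i (redV p e r he (x i))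
      rw [map_sum]
      exact Finset.sum_congr rfl fun i _ => hΦ _ _ _

/-- from a field to its additive group -/
theorem homSet_of_linOver {m : ℕ} {F κ : Type} [Field F] [Finite F] (h : LinOver m F κ) :
    HomSet m F κ := by
  obtain ⟨A, h1, h2⟩ := h
  refine ⟨fun c i => AddMonoidHom.mulLeft (A c i), ?_, ?_⟩
  · intro c i
    exact mulLeft_bijective₀ _ (h1 c i)
  · intro e he
    have hdet := h2 e he
    rw [← Finite.injective_iff_bijective]
    exact Matrix.mulVec_injective_iff_isUnit.2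
      ((Matrix.isUnit_iff_isUnit_det _).2 (isUnit_iff_ne_zero.2 hdet))

/-- existence over homocyclic groups -/
theorem homSet_exists {m p e r q : ℕ} (hp : p.Prime) (he : e ≠ 0) (hr : r ≠ 0) (hm : 2 ≤ m)
    (hq2 : 2 ≤ q) (hq : q ≤ p ^ r) : HomSet m (Hom' p e r) (Fin (value m q)) := by
  haveI : Fact p.Prime := ⟨hp⟩
  haveI : NeZero p := ⟨hp.ne_zero⟩
  apply HomSet.lift he
  let F := GaloisField p r
  haveI : Fintype F := Fintype.ofFinite F
  have hcard : Fintype.card F = p ^ r := by
    rw [← Nat.card_eq_fintype_card]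
    exact GaloisField.card p r hr
  have h1 : HomSet m F (Fin (value m q)) :=
    homSet_of_linOver (exists_value hm hq2 (by rw [hcard]; exact hq))
  have hfr : Module.finrank (ZMod p) F = r := GaloisField.finrank p hr
  let b := Module.finBasisOfFinrankEq (ZMod p) F hfr
  exact h1.congr b.equivFun.toAddEquiv

end Pool.Agent.Y347.AG
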