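import Pool.Agent.Y347.AG.Descend
import Pool.Agent.Y347.VL.ZM

set_option autoImplicit false

/-!
# The values for finite abelian groups
-/

namespace Pool.Agent.Y347.AG

open Function Pool.Agent.H430R2.PermCubes Pool.Agent.Y347.VL

/-- the dimensions in which the value is determined -/
def Covered' (m q : ℕ) : Prop := m = 2 ∨ m = 3 ∨ q ≤ m + 1 ∨ q.Prime ∨ (q % 2 = 0 ∧ q ≤ m + 2)

/-- over the prime fields the endomorphisms are multiplications -/
theorem linOver_of_homSet {m p : ℕ} [Fact p.Prime] {κ : Type} (h : HomSet m (ZMod p) κ) :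
    LinOver m (ZMod p) κ := by
  obtain ⟨φ, h1, h2⟩ := h
  have hφ : ∀ c i x, φ c i x = φ c i 1 * x := by
    intro c i x
    have h3 := ZMod.natCast_zmod_val x
    conv_lhs => rw [← h3, ← mul_one ((x.val : ℕ) : ZMod p), ← nsmul_eq_mul, map_nsmul,
      nsmul_eq_mul, h3]
    rw [mul_comm]
  refine ⟨fun c i => φ c i 1, ?_, ?_⟩
  · intro c i h0
    have h0' : φ c i 1 = 0 := h0
    have : φ c i 1 = φ c i 0 := by rw [h0', map_zero]
    exact one_ne_zero ((h1 c i).1 this)
  · intro e he
    have hb := (h2 e he).1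
    have h4 : Injective (Matrix.mulVec (Matrix.of fun s i => φ (e s) i 1)) := by
      intro x y hxy
      apply hb
      funext s
      have := congrFun hxy s
      simp only [Matrix.mulVec, dotProduct, Matrix.of_apply] at this
      simp only [app]
      rw [Finset.sum_congr rfl (fun i _ => hφ (e s) i (x i)),
        Finset.sum_congr rfl (fun i _ => hφ (e s) i (y i))]
      exact this
    exact isUnit_iff_ne_zero.1
      ((Matrix.isUnit_iff_isUnit_det _).1 (Matrix.mulVec_injective_iff_isUnit.1 h4))

theorem homSet_le {m p r k : ℕ} (hp : p.Prime) (hr : r ≠ 0) (hm : 2 ≤ m)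
    (hc : Covered' m (p ^ r)) (h : HomSet m (Fin r → ZMod p) (Fin k)) : k ≤ value m (p ^ r) := by
  classical
  haveI : Fact p.Prime := ⟨hp⟩
  have hpp : IsPrimePow (p ^ r) := ⟨p, r, hp.prime, Nat.pos_of_ne_zero hr, rfl⟩
  have hq2 : 2 ≤ p ^ r := hpp.two_le
  by_cases hprime : (p ^ r).Prime
  · have hr1 : r = 1 := Nat.Prime.eq_one_of_pow hprime
    subst hr1
    have h5 : HomSet m (ZMod p) (Fin k) := by
      refine h.congr ?_
      exact
        { toFun := fun x => x 0
          invFun := fun y _ => y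
          left_inv := by
            intro x
            funext i
            rw [Subsingleton.elim i 0]
          right_inv := fun _ => rfl
          map_add' := fun _ _ => rfl }
    have h6 := linOver_of_homSet h5
    have h7 : Fintype.card (ZMod p) = p := ZMod.card p
    have h8 := le_value hm (by rw [h7]; exact covered_prime hm hp) h6
    rw [h7] at h8
    rwa [pow_one]
  have hmem : ∃ C : Fin k → (Fin m → Fin (p ^ r)) → Fin (p ^ r),
      IsVariationalSet m (p ^ r) k C := by
    obtain ⟨C, hC, -⟩ := (mem_gsizes_iff (m := m) (k := k)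
      (show Nat.card (Fin r → ZMod p) = p ^ r by simp [Nat.card_eq_fintype_card, ZMod.card])).2 h
    exact ⟨C, hC⟩
  obtain ⟨C, hC⟩ := hmem
  generalize hq : p ^ r = q at *
  unfold value
  by_cases hm2 : m = 2
  · rw [if_pos hm2]
    subst hm2
    exact Pool.Agent.H625R3.PC.two_dim_le hq2 hC
  rw [if_neg hm2]
  by_cases hq2' : q = 2
  · exfalso
    rw [hq2'] at hprime
    exact hprime Nat.prime_two
  rw [if_neg hq2']
  by_cases hqm : q ≤ m
  · rw [if_pos hqm]
    exact IsArray.le_add_one hC.2 hq2 hqm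
  rw [if_neg hqm]
  rcases hc with hc | hc | hc | hc | ⟨heven, hc⟩
  · exact absurd hc hm2
  · subst hc
    split_ifs with h1
    · have := IsArray.le_general hC.2 hm hq2
      omega
    · have := IsArray.le_odd hC.2 le_rfl hq2 (by omega)
      omega
  · have hm1 : m + 1 = q := by omega
    have h4 : 4 ≤ q := by
      by_contra hcon
      have : q = 3 := by omega
      subst this
      exact hprime Nat.prime_three
    have := (Pool.Agent.H625R3.PC.isPi_dual hpp h4 hm1).2 ⟨C, hC⟩
    split_ifs at this ⊢ <;> omega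
  · exact absurd hc hprime
  · by_cases hm1 : m + 1 = q
    · rw [if_pos ⟨heven, Or.inr hm1⟩]
      have h4 : 4 ≤ q := by omega
      have := (Pool.Agent.H625R3.PC.isPi_dual hpp h4 hm1).2 ⟨C, hC⟩
      rwa [if_neg (by omega)] at this
    · by_cases hm3 : m = 3
      · rw [if_pos ⟨heven, Or.inl hm3⟩]
        have := IsArray.le_general hC.2 hm hq2
        omega
      · rw [if_neg (by
          rintro ⟨-, h | h⟩
          · exact hm3 h
          · exact hm1 h)]
        have h5 : m + 2 = q := by omega
        refine Pool.Agent.H625R3.PC.upper_two hC.2 h5 (by omega) heven ?_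
        intro h3
        obtain ⟨p', e, hp', he, hpe⟩ := hpp
        have hp' := hp'.nat_prime
        have h2p : 2 ∣ p' ^ e := by rw [hpe]; exact Nat.dvd_of_mod_eq_zero heven
        have h3p : 3 ∣ p' ^ e := by rw [hpe]; exact Nat.dvd_of_mod_eq_zero h3
        have e2 := (Nat.prime_dvd_prime_iff_eq Nat.prime_two hp').1
          (Nat.prime_two.dvd_of_dvd_pow h2p)
        have e3 := (Nat.prime_dvd_prime_iff_eq Nat.prime_three hp').1
          (Nat.prime_three.dvd_of_dvd_pow h3p)
        omega

section
variable {J : Type} [Fintype J] {p e r : J → ℕ}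

/-- **The reduction.** -/
theorem homSet_iff_of_le (hp : ∀ c, (p c).Prime) (he : ∀ c, e c ≠ 0)
    (hinj : Injective fun c => (p c, e c)) {m : ℕ} {κ : Type} :
    HomSet m (Grp p e r) κ ↔ ∀ c, HomSet m (Fin (r c) → ZMod (p c)) κ := by
  classical
  constructor
  · intro h c
    exact h.desc hp he hinj c
  · intro h
    refine HomSet.pi (H := fun c => Hom' (p c) (e c) (r c)) fun c => ?_
    haveI : NeZero (p c) := ⟨(hp c).ne_zero⟩
    exact HomSet.lift (he c) (h c)

/-- **The values.** -/
theorem isGreatest_group {m n q : ℕ} (hm : 2 ≤ m) (hp : ∀ c, (p c).Prime) (he : ∀ c, e c ≠ 0)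
    (hr : ∀ c, r c ≠ 0) (hinj : Injective fun c => (p c, e c)) {G : Type} [AddCommGroup G]
    (iso : G ≃+ Grp p e r) (hn : Nat.card G = n)
    (hq : IsLeast (Set.range fun c => p c ^ r c) q) (hc : Covered' m q) :
    IsGreatest (GSizes G m n) (value m q) := by
  classical
  haveI : ∀ c, NeZero (p c) := fun c => ⟨(hp c).ne_zero⟩
  haveI : ∀ c, NeZero (p c ^ e c) := fun c => ⟨pow_ne_zero _ (NeZero.ne (p c))⟩
  haveI : Finite G := Finite.of_equiv _ iso.symm.toEquiv
  have h2 : 2 ≤ q := by
    obtain ⟨c, hc⟩ := hq.1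
    rw [← hc]
    have : IsPrimePow (p c ^ r c) := ⟨p c, r c, (hp c).prime, Nat.pos_of_ne_zero (hr c), rfl⟩
    exact this.two_le
  constructor
  · rw [mem_gsizes_iff hn]
    refine HomSet.congr iso.symm ?_
    refine HomSet.pi (H := fun c => Hom' (p c) (e c) (r c)) fun c => ?_
    exact homSet_exists (hp c) (he c) (hr c) hm h2 (hq.2 ⟨c, rfl⟩)
  · intro k hk
    rw [mem_gsizes_iff hn] at hk
    have h3 := hk.congr iso
    obtain ⟨c, hc'⟩ := hq.1
    have h4 := h3.desc hp he hinj c
    subst hc'
    exact homSet_le (hp c) (hr c) hm hc h4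

end

end Pool.Agent.Y347.AG
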